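import Pool.Agent.Y211.CL.Qf

/-!
# Relative closedness, compactness and continuity
-/

namespace Pool.Agent.Y211.CL

open Pool.Agent.NPC Pool.Agent.NPC.ER Pool.Agent.NPC.H612
open Filter Topology

/-! ### The decision problems -/

/-- Instances `(n, φ, ψ)`: the closure of the set of `φ` meets the set of `ψ`. -/
def ClosureMeets (a : ℕ × QF × QF) : Prop :=
  a.2.1.Valid a.1 ∧ a.2.2.Valid a.1 ∧ (closure (Sol a.1 a.2.1) ∩ Sol a.1 a.2.2).Nonempty

/-- Instances `(n, φ, ψ)`: the points of the set of `ψ` which satisfy `φ` form a closed subset of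
the (topological) space of all points which satisfy `ψ`. -/
def RelativelyClosed (a : ℕ × QF × QF) : Prop :=
  a.2.1.Valid a.1 ∧ a.2.2.Valid a.1 ∧
    IsClosed ((fun x : Sol a.1 a.2.2 => (x : Fin a.1 → ℝ)) ⁻¹' Sol a.1 a.2.1)

/-- Instances `(n, φ)`: the set of `φ` is compact. -/
def Compactness (a : ℕ × QF) : Prop := a.2.Valid a.1 ∧ IsCompact (Sol a.1 a.2)

/-- Instances `(n, φ)`, where `φ` has `n + 1` variables: the set of `φ` is the graph of a real
function defined on a subset of `ℝⁿ` and continuous there. -/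
def ContinuousGraph (a : ℕ × QF) : Prop :=
  a.2.Valid (a.1 + 1) ∧ ∃ (D : Set (Fin a.1 → ℝ)) (f : (Fin a.1 → ℝ) → ℝ), ContinuousOn f D ∧
    Sol (a.1 + 1) a.2 = {z | (fun i : Fin a.1 => z i.castSucc) ∈ D ∧
      z (Fin.last a.1) = f (fun i : Fin a.1 => z i.castSucc)}

/-! ### Helpers -/

theorem ETR_or (φ ψ : Fm) : ETR (Fm.or φ ψ) ↔ ETR φ ∨ ETR ψ := by
  constructor
  · rintro ⟨x, h | h⟩
    · exact Or.inl ⟨x, h⟩
    · exact Or.inr ⟨x, h⟩
  · rintro (⟨x, h⟩ | ⟨x, h⟩)
    · exact ⟨x, Or.inl h⟩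
    · exact ⟨x, Or.inr h⟩

/-- A problem in `∀ℝ`, with the test of validity. -/
theorem inAR_valid {α : Type} [TEnc α] [TDec α] {P : α → Prop} {b : α → Bool} {φ : α → Fm}
    (hb : NPC.Poly b) (h : NPC.Poly φ)
    (hP : ∀ a, P a ↔ (b a = true ∧ ¬ ETR (φ a))) : InAR (lang P) := by
  refine InAR.of_poly (φ := fun a => if b a = true then φ a else tt)
    (NPC.Poly.ite (NPC.Poly.decide_bool hb) h (NPC.Poly.const _)) fun a => ?_
  rw [hP]
  by_cases hb : b a = true
  · rw [if_pos hb]
    simp [hb]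
  · rw [if_neg hb]
    simp only [hb]
    simp only [Bool.false_eq_true, false_and, not_false_eq_true, true_iff]
    exact ⟨fun _ => 0, holds_tt _⟩

/-- A problem in `∃ℝ`, with the test of validity. -/
theorem inER_valid {α : Type} [TEnc α] [TDec α] {P : α → Prop} {b : α → Bool} {φ : α → Fm}
    (hb : NPC.Poly b) (h : NPC.Poly φ)
    (hP : ∀ a, P a ↔ (b a = true ∧ ETR (φ a))) : InER (lang P) := by
  refine InER.of_poly (φ := fun a => if b a = true then φ a else Fm.ff)
    (NPC.Poly.ite (NPC.Poly.decide_bool hb) h (NPC.Poly.const _)) fun a => ?_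
  rw [hP]
  by_cases hb : b a = true
  · rw [if_pos hb]
    simp [hb]
  · rw [if_neg hb]
    simp only [hb]
    simp [not_ETR_ff]

section

variable {α : Type} [TEnc α]

theorem poly_vB {n : α → ℕ} {φ : α → QF} (hn : NPC.Poly n) (h : NPC.Poly φ) :
    NPC.Poly (fun a => validB (n a) (φ a)) :=
  poly_validB.comp (NPC.Poly.pair hn h)

end

/-! ### Closure meets -/

theorem closureMeets_inER : InER (lang ClosureMeets) := by
  refine inER_valid (b := fun a : ℕ × QF × QF => validB a.1 a.2.1 && validB a.1 a.2.2)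
    (φ := fun a => mFm (mInst a.1 a.2.1 a.2.2)) ?_ ?_ fun a => ?_
  · exact NPC.Poly.and (poly_vB (NPC.Poly.fst NPC.Poly.id) (NPC.Poly.fst (NPC.Poly.snd NPC.Poly.id)))
      (poly_vB (NPC.Poly.fst NPC.Poly.id) (NPC.Poly.snd (NPC.Poly.snd NPC.Poly.id)))
  · exact poly_mFm (poly_mInst (NPC.Poly.fst NPC.Poly.id)
      (NPC.Poly.fst (NPC.Poly.snd NPC.Poly.id)) (NPC.Poly.snd (NPC.Poly.snd NPC.Poly.id)))
  · rw [← meets_iff', ← nonempty_iff_meets, Bool.and_eq_true, validB_iff, validB_iff, and_assoc]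
    rfl

/-- The true formula. -/
def qtt : QF := QF.eqZ []

theorem holds_qtt {n : ℕ} (x : Fin n → ℝ) : qtt.Holds x := by
  simp [qtt, QF.Holds, pval, aeval_toPoly]

theorem valid_qtt (n : ℕ) : qtt.Valid n := by
  intro p hp
  simp only [qtt, QF.polys, List.mem_singleton] at hp
  subst hp
  simp [PolyData.Valid]

theorem sat_iff_closureMeets (S : List ER.Con) :
    Sat S ↔ ClosureMeets ((clInst S).1, (clInst S).2, qtt) := by
  have h1 := clInst_valid S
  have h2 : ClosureMeets ((clInst S).1, (clInst S).2, qtt) ↔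
      (closure (Sol (clInst S).1 (clInst S).2)).Nonempty := by
    unfold ClosureMeets
    constructor
    · rintro ⟨-, -, x, hx, -⟩
      exact ⟨x, hx⟩
    · rintro ⟨x, hx⟩
      exact ⟨h1, valid_qtt _, x, hx, holds_qtt x⟩
  rw [h2, closure_nonempty_iff]
  constructor
  · intro hS
    by_contra hne
    rw [Set.not_nonempty_iff_eq_empty] at hne
    have := (closed_iff_not_sat S).1 (by
      change IsClosed (Sol (clInst S).1 (clInst S).2)
      rw [hne]
      exact isClosed_empty)
    exact this hS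
  · rintro ⟨x, hx⟩
    exact ⟨_, ((clInst_holds S x).1 hx).1⟩

theorem closureMeets_complete : ERComplete (lang ClosureMeets) :=
  ⟨closureMeets_inER, ERHard.of_sys (f := fun S => ((clInst S).1, (clInst S).2, qtt))
    (NPC.Poly.pair (NPC.Poly.fst poly_clInst) (NPC.Poly.pair (NPC.Poly.snd poly_clInst)
      (NPC.Poly.const _))) sat_iff_closureMeets⟩

/-! ### Relative closedness -/

theorem not_relClosed_iff (n : ℕ) (φ ψ : QF) :
    ¬ IsClosed ((fun x : Sol n ψ => (x : Fin n → ℝ)) ⁻¹' Sol n φ) ↔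
      (closure (Sol n (QF.and φ ψ)) ∩ Sol n (QF.and ψ (QF.not φ))).Nonempty := by
  have himg : (fun x : Sol n ψ => (x : Fin n → ℝ)) ''
      ((fun x : Sol n ψ => (x : Fin n → ℝ)) ⁻¹' Sol n φ) = Sol n (QF.and φ ψ) := by
    ext x
    constructor
    · rintro ⟨y, hy, rfl⟩
      exact ⟨hy, y.2⟩
    · rintro ⟨h1, h2⟩
      exact ⟨⟨x, h2⟩, h1, rfl⟩
  rw [← closure_subset_iff_isClosed, Set.not_subset]
  constructor
  · rintro ⟨x, hx, hn⟩
    refine ⟨x, ?_, x.2, hn⟩
    rw [← himg]
    exact (closure_subtype (s := (fun x : Sol n ψ => (x : Fin n → ℝ)) ⁻¹' Sol n φ)).1 hx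
  · rintro ⟨x, hx, h1, h2⟩
    refine ⟨⟨x, h1⟩, ?_, h2⟩
    rw [closure_subtype]
    rw [← himg] at hx
    exact hx

theorem relativelyClosed_inAR : InAR (lang RelativelyClosed) := by
  refine inAR_valid (b := fun a : ℕ × QF × QF => validB a.1 a.2.1 && validB a.1 a.2.2)
    (φ := fun a => mFm (mInst a.1 (QF.and a.2.1 a.2.2) (QF.and a.2.2 (QF.not a.2.1)))) ?_ ?_
    fun a => ?_
  · exact NPC.Poly.and (poly_vB (NPC.Poly.fst NPC.Poly.id) (NPC.Poly.fst (NPC.Poly.snd NPC.Poly.id)))
      (poly_vB (NPC.Poly.fst NPC.Poly.id) (NPC.Poly.snd (NPC.Poly.snd NPC.Poly.id)))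
  · have h1 : NPC.Poly (fun a : ℕ × QF × QF => a.2.1) := NPC.Poly.fst (NPC.Poly.snd NPC.Poly.id)
    have h2 : NPC.Poly (fun a : ℕ × QF × QF => a.2.2) := NPC.Poly.snd (NPC.Poly.snd NPC.Poly.id)
    exact poly_mFm (poly_mInst (NPC.Poly.fst NPC.Poly.id) (poly_qand h1 h2)
      (poly_qand h2 (poly_qnot h1)))
  · rw [← meets_iff', ← nonempty_iff_meets, ← not_relClosed_iff, not_not, Bool.and_eq_true,
      validB_iff, validB_iff, and_assoc]
    rfl

theorem sat_iff_not_relClosed (S : List ER.Con) :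
    Sat S ↔ ¬ RelativelyClosed ((clInst S).1, (clInst S).2, qtt) := by
  have h1 := clInst_valid S
  have h2 : RelativelyClosed ((clInst S).1, (clInst S).2, qtt) ↔
      IsClosed (Sol (clInst S).1 (clInst S).2) := by
    have h3 := not_relClosed_iff (clInst S).1 (clInst S).2 qtt
    unfold RelativelyClosed
    simp only
    rw [← not_iff_not, not_and, not_and]
    constructor
    · intro h4 h5
      have h6 := h4 h1 (valid_qtt _)
      rw [h3] at h6
      obtain ⟨x, hx, h7, h8⟩ := h6
      have h9 : closure (Sol (clInst S).1 (QF.and (clInst S).2 qtt)) ⊆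
          Sol (clInst S).1 (clInst S).2 := by
        refine closure_minimal ?_ h5
        rintro y ⟨hy, -⟩
        exact hy
      exact h8 (h9 hx)
    · intro h4 _ _ h5
      refine h4 ?_
      have h6 : Sol (clInst S).1 (clInst S).2 = Subtype.val ''
          ((fun x : Sol (clInst S).1 qtt => (x : Fin (clInst S).1 → ℝ)) ⁻¹'
            Sol (clInst S).1 (clInst S).2) := by
        ext x
        constructor
        · intro hx
          exact ⟨⟨x, holds_qtt x⟩, hx, rfl⟩
        · rintro ⟨y, hy, rfl⟩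
          exact hy
      rw [h6]
      have h7 : IsClosed (Sol (clInst S).1 qtt) := by
        have : Sol (clInst S).1 qtt = Set.univ := by
          ext x
          simp only [Set.mem_univ, iff_true]
          exact holds_qtt x
        rw [this]
        exact isClosed_univ
      exact h7.isClosedEmbedding_subtypeVal.isClosedMap _ h5
  rw [h2]
  have := closed_iff_not_sat S
  change IsClosed (Sol (clInst S).1 (clInst S).2) ↔ _ at this
  rw [this, not_not]

theorem relativelyClosed_complete : ARComplete (lang RelativelyClosed) :=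
  ⟨relativelyClosed_inAR, ARHard.of_sys (f := fun S => ((clInst S).1, (clInst S).2, qtt))
    (NPC.Poly.pair (NPC.Poly.fst poly_clInst) (NPC.Poly.pair (NPC.Poly.snd poly_clInst)
      (NPC.Poly.const _))) sat_iff_not_relClosed⟩

end Pool.Agent.Y211.CL
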