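import Pool.Agent.Y211.CL.Cpt

/-!
# Continuity
-/

namespace Pool.Agent.Y211.CL

open Pool.Agent.NPC Pool.Agent.NPC.ER Pool.Agent.NPC.H612
open Filter Topology

/-- The instance of `Meets` for discontinuity. -/
def gInst (n : ℕ) (φ : QF) : List ℕ × Fm × Fm :=
  (0 :: 1 :: (List.range (min n (szK φ))).map (fun i => vP i 0),
    Fm.and (qfm (min (n + 1) (szK φ)) (szK φ) φ)
      (Fm.le (Tm.var 1) (sqq (dfT (Tm.var (vP n 0)) (Tm.var 0)))),
    Fm.and (qfm (min (n + 1) (szK φ)) (szK φ) φ)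
      (Fm.and (Fm.eq (Tm.var 0) (Tm.var (vP n 0))) (Fm.lt Tm.zero (Tm.var 1))))

/-- Continuity in terms of `ε` and `δ`. -/
def EpsDelta (n : ℕ) (φ : QF) : Prop :=
  ∀ x ∈ Sol (n + 1) φ, ∀ ε > 0, ∃ δ > 0, ∀ z ∈ Sol (n + 1) φ,
    (∀ i : Fin n, |z i.castSucc - x i.castSucc| < δ) → |z (Fin.last n) - x (Fin.last n)| < ε

theorem epsDelta_iff (n : ℕ) (φ : QF) : EpsDelta n φ ↔
    ∃ (D : Set (Fin n → ℝ)) (f : (Fin n → ℝ) → ℝ), ContinuousOn f D ∧
      Sol (n + 1) φ = {z | (fun i : Fin n => z i.castSucc) ∈ D ∧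
        z (Fin.last n) = f (fun i : Fin n => z i.castSucc)} := by
  constructor
  · intro h
    let D : Set (Fin n → ℝ) := {x | ∃ z ∈ Sol (n + 1) φ, (fun i : Fin n => z i.castSucc) = x}
    have hf : ∀ x : Fin n → ℝ, ∃ y : ℝ, x ∈ D → ∃ z ∈ Sol (n + 1) φ,
        (fun i : Fin n => z i.castSucc) = x ∧ z (Fin.last n) = y := by
      intro x
      by_cases hx : x ∈ D
      · obtain ⟨z, hz, e⟩ := hx
        exact ⟨z (Fin.last n), fun _ => ⟨z, hz, e, rfl⟩⟩
      · exact ⟨0, fun h => absurd h hx⟩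
    choose f hf using hf
    have huniq : ∀ z ∈ Sol (n + 1) φ, z (Fin.last n) = f (fun i : Fin n => z i.castSucc) := by
      intro z hz
      obtain ⟨z', hz', e1, e2⟩ := hf (fun i : Fin n => z i.castSucc) ⟨z, hz, rfl⟩
      rw [← e2]
      by_contra hne
      have hpos : 0 < |z (Fin.last n) - z' (Fin.last n)| := abs_pos.2 (sub_ne_zero.2 hne)
      obtain ⟨δ, hδ, h1⟩ := h z' hz' _ hpos
      have h2 := h1 z hz fun i => by
        have : z' i.castSucc = z i.castSucc := congrFun e1 i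
        rw [this, sub_self, abs_zero]
        exact hδ
      exact lt_irrefl _ h2
    refine ⟨D, f, ?_, ?_⟩
    · rw [Metric.continuousOn_iff]
      intro x hx ε hε
      obtain ⟨zx, hzx, ex, efx⟩ := hf x hx
      obtain ⟨δ, hδ, h1⟩ := h zx hzx ε hε
      refine ⟨δ, hδ, fun a ha hd => ?_⟩
      obtain ⟨za, hza, ea, efa⟩ := hf a ha
      rw [← efx, ← efa, Real.dist_eq]
      refine h1 za hza fun i => ?_
      have e1 : zx i.castSucc = x i := congrFun ex i
      have e2 : za i.castSucc = a i := congrFun ea i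
      rw [e1, e2, ← Real.dist_eq]
      exact (dist_pi_lt_iff hδ).1 hd i
    · ext z
      constructor
      · intro hz
        exact ⟨⟨z, hz, rfl⟩, huniq z hz⟩
      · rintro ⟨hD, hz⟩
        obtain ⟨z', hz', e1, e2⟩ := hf _ hD
        have : z = z' := by
          funext j
          refine Fin.lastCases ?_ (fun i => ?_) j
          · rw [hz, e2]
          · exact (congrFun e1 i).symm
        rw [this]
        exact hz'
  · rintro ⟨D, f, hf, hS⟩ x hx ε hε
    rw [hS] at hx
    obtain ⟨hxD, hxf⟩ := hx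
    rw [Metric.continuousOn_iff] at hf
    obtain ⟨δ, hδ, h1⟩ := hf _ hxD ε hε
    refine ⟨δ, hδ, fun z hz hd => ?_⟩
    rw [hS] at hz
    obtain ⟨hzD, hzf⟩ := hz
    rw [hxf, hzf, ← Real.dist_eq]
    refine h1 _ hzD ((dist_pi_lt_iff hδ).2 fun i => ?_)
    rw [Real.dist_eq]
    exact hd i

theorem not_epsDelta_iff (n : ℕ) (φ : QF) : ¬ EpsDelta n φ ↔ Meets (gInst n φ) := by
  have hs := szd_self φ
  unfold gInst
  change Szd (szK φ) _ at hs
  generalize szK φ = L at hs
  constructor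
  · intro h
    unfold EpsDelta at h
    push Not at h
    obtain ⟨x, hx, ε₀, hε₀, h1⟩ := h
    have hlast : ∀ z : Fin (n + 1) → ℝ, xt z n = z (Fin.last n) := fun z =>
      xt_of_lt z (Nat.lt_succ_self n)
    let u : ℕ → ℝ := fun j => if j = 0 then x (Fin.last n) else ε₀ * ε₀
    have hu0 : ∀ z : Fin (n + 1) → ℝ, stP z u 0 = x (Fin.last n) := fun z => by
      rw [stP_of_ne _ _ (by norm_num)]
      simp [u]
    have hu1 : ∀ z : Fin (n + 1) → ℝ, stP z u 1 = ε₀ * ε₀ := fun z => by
      rw [stP_of_ne _ _ (by norm_num)]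
      simp [u]
    refine ⟨stP x u, ⟨qfm_complete hs hx _, ?_, ?_⟩, fun ε hε => ?_⟩
    · simp only [Fm.Holds, Tm.eval]
      rw [hu0, stP_vP0, hlast]
    · simp only [Fm.Holds, Tm.eval]
      rw [hu1]
      positivity
    · obtain ⟨z, hz, hd, hbig⟩ := h1 ε hε
      refine ⟨stP z u, ⟨qfm_complete hs hz _, ?_⟩, ?_⟩
      · simp only [Fm.Holds, Tm.eval, sqq, dfT]
        rw [hu1, hu0, stP_vP0, hlast, ← sub_eq_add_neg]
        have h2 := mul_le_mul hbig hbig hε₀.le (abs_nonneg _)
        rwa [abs_mul_abs_self] at h2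
      · intro j hj
        rcases List.mem_cons.1 hj with rfl | hj
        · rw [hu0, hu0, sub_self, abs_zero]
          exact hε
        · rcases List.mem_cons.1 hj with rfl | hj
          · rw [hu1, hu1, sub_self, abs_zero]
            exact hε
          · simp only [List.mem_map, List.mem_range] at hj
            obtain ⟨i, hi, rfl⟩ := hj
            have hin : i < n := hi.trans_le (min_le_left _ _)
            rw [stP_vP0, stP_vP0, xt_of_lt z (hin.trans (Nat.lt_succ_self n)),
              xt_of_lt x (hin.trans (Nat.lt_succ_self n))]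
            exact hd ⟨i, hin⟩
  · rintro ⟨X, ⟨hX, hX0, hX1⟩, hlim⟩ h
    simp only [Fm.Holds, Tm.eval] at hX0 hX1
    have hx : (fun i : Fin (n + 1) => X (vP i 0)) ∈ Sol (n + 1) φ := by
      refine qfm_sound hs hX _ fun j hj => ?_
      rw [xt_of_lt _ (hj.trans_le (min_le_left _ _))]
    set r := Real.sqrt (X 1 / 2) with hr
    have hr0 : 0 < r := Real.sqrt_pos.2 (by positivity)
    have hrr : r * r = X 1 / 2 := Real.mul_self_sqrt (by positivity)
    obtain ⟨δ, hδ, h1⟩ := h _ hx (r / 2) (by positivity)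
    obtain ⟨Y, ⟨hY, hY1⟩, hd⟩ := hlim (min δ (min (r / 2) (X 1 / 2)))
      (lt_min hδ (lt_min (by positivity) (by positivity)))
    simp only [Fm.Holds, Tm.eval, sqq, dfT] at hY1
    rw [← sub_eq_add_neg] at hY1
    have hd0 := hd 0 (by simp)
    have hd1 := hd 1 (by simp)
    have hd0' : |Y 0 - X 0| < r / 2 := hd0.trans_le ((min_le_right _ _).trans (min_le_left _ _))
    have hd1' : |Y 1 - X 1| < X 1 / 2 := hd1.trans_le ((min_le_right _ _).trans (min_le_right _ _))
    let z : Fin (n + 1) → ℝ := fun i =>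
      if (i : ℕ) < min (n + 1) L ∨ (i : ℕ) = n then Y (vP i 0) else X (vP i 0)
    have hz : z ∈ Sol (n + 1) φ := by
      refine qfm_sound hs hY _ fun j hj => ?_
      rw [xt_of_lt _ (hj.trans_le (min_le_left _ _))]
      exact if_pos (Or.inl hj)
    have hzl : z (Fin.last n) = Y (vP n 0) := if_pos (Or.inr rfl)
    have h2 := h1 z hz fun i => by
      by_cases hi : (i : ℕ) < min (n + 1) L
      · have e : z i.castSucc = Y (vP i 0) := if_pos (Or.inl hi)
        rw [e]
        have hmem : vP i 0 ∈ (0 :: 1 :: (List.range (min n L)).map (fun i => vP i 0)) := by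
          refine List.mem_cons_of_mem _ (List.mem_cons_of_mem _ (List.mem_map.2
            ⟨i, List.mem_range.2 (lt_min i.2 (hi.trans_le (min_le_right _ _))), rfl⟩))
        exact (hd _ hmem).trans_le (min_le_left _ _)
      · have hne : (i : ℕ) ≠ n := i.2.ne
        have e : z i.castSucc = X (vP i 0) := if_neg (by
          rintro (h | h)
          · exact hi h
          · exact hne h)
        rw [e]
        simp only [Fin.val_castSucc, sub_self, abs_zero]
        exact hδ
    rw [hzl] at h2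
    have e2 : X (vP ((Fin.last n : Fin (n + 1)) : ℕ) 0) = X 0 := by
      rw [hX0]
      rfl
    rw [e2] at h2
    have h3 : |Y (vP n 0) - Y 0| < r := by
      calc |Y (vP n 0) - Y 0| = |(Y (vP n 0) - X 0) - (Y 0 - X 0)| := by congr 1; ring
        _ ≤ |Y (vP n 0) - X 0| + |Y 0 - X 0| := abs_sub _ _
        _ < r / 2 + r / 2 := add_lt_add h2 hd0'
        _ = r := by ring
    have h4 : (Y (vP n 0) - Y 0) * (Y (vP n 0) - Y 0) < r * r := by
      rw [← abs_mul_abs_self]
      exact mul_lt_mul'' h3 h3 (abs_nonneg _) (abs_nonneg _)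
    rw [hrr] at h4
    have h5 := (abs_lt.1 hd1').1
    linarith

theorem poly_gInst {α : Type} [TEnc α] {n : α → ℕ} {φ : α → QF} (hn : NPC.Poly n)
    (h : NPC.Poly φ) : NPC.Poly (fun a => gInst (n a) (φ a)) := by
  have hL : UPoly (fun a => szK (φ a)) := UPoly.length (poly_szList h)
  have hm := upoly_minL hn hL
  have hm1 := upoly_minL (NPC.Poly.succ hn) hL
  have hq := poly_qfm hm1 hL h
  have hv : NPC.Poly (fun a => Tm.var (vP (n a) 0)) := poly_tvar (poly_vP hn (NPC.Poly.const 0))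
  refine NPC.Poly.pair (NPC.Poly.cons (NPC.Poly.const _) (NPC.Poly.cons (NPC.Poly.const _)
    (poly_evars hm))) (NPC.Poly.pair (poly_fand hq (poly_fle (NPC.Poly.const _)
      (poly_sqq (poly_dfT hv (NPC.Poly.const _))))) (poly_fand hq (poly_fand
      (poly_feq (NPC.Poly.const _) hv) (NPC.Poly.const _))))

theorem continuousGraph_inAR : InAR (lang ContinuousGraph) := by
  refine inAR_valid (b := fun a : ℕ × QF => validB (a.1 + 1) a.2)
    (φ := fun a => mFm (gInst a.1 a.2)) ?_ ?_ fun a => ?_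
  · exact poly_vB (NPC.Poly.succ (NPC.Poly.fst NPC.Poly.id)) (NPC.Poly.snd NPC.Poly.id)
  · exact poly_mFm (poly_gInst (NPC.Poly.fst NPC.Poly.id) (NPC.Poly.snd NPC.Poly.id))
  · rw [← meets_iff', ← not_epsDelta_iff, not_not, validB_iff, epsDelta_iff]
    rfl

end Pool.Agent.Y211.CL
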