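import Pool.Agent.H612.FmGap
import Pool.Agent.H612.ClosedPoly
import Pool.Agent.H612.AffMain
import Pool.Agent.H612.AR
import Pool.Agent.ER.Hard

/-!
# Existential sentences with a limit are in `∃ℝ`

Given quantifier-free formulas `F`, `G` and a list `E` of variables, it is in `∃ℝ` to decide whether
some solution of `G` is, as far as the variables of `E` are concerned, a limit of solutions of `F`.
In other words: the closure of the set defined by an existential formula meets the set defined by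
another existential formula.
-/

namespace Pool.Agent.Y211.CL

open Pool.Agent.NPC Pool.Agent.NPC.ER Pool.Agent.NPC.H612
open Filter Topology

/-- The sentence `∃ x, G(x) ∧ ∀ ε > 0 ∃ y, F(y) ∧ |y_i - x_i| < ε for i ∈ E`. -/
def Meets (a : List ℕ × Fm × Fm) : Prop :=
  ∃ x : ℕ → ℝ, a.2.2.Holds x ∧ ∀ ε > 0, ∃ y : ℕ → ℝ, a.2.1.Holds y ∧ ∀ i ∈ a.1, |y i - x i| < ε

/-! ### The formula -/

/-- variables of the first system -/
def yv (i : ℕ) : ℕ := 8 * i + 3

/-- variables of the second system -/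
def wv (i : ℕ) : ℕ := 8 * i + 7

/-- difference of terms -/
def dfT (s t : Tm) : Tm := Tm.add s (Tm.neg t)

/-- square of a term -/
def sqq (t : Tm) : Tm := Tm.mul t t

/-- The term which must vanish. -/
def cT (f : ℕ → ℕ) : ER.Con → Tm
  | ER.Con.one i => dfT (Tm.var (f i)) Tm.one
  | ER.Con.add i j k => dfT (Tm.add (Tm.var (f i)) (Tm.var (f j))) (Tm.var (f k))
  | ER.Con.mul i j k => dfT (Tm.mul (Tm.var (f i)) (Tm.var (f j))) (Tm.var (f k))

/-- The quantity which must vanish. -/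
def cv (w : ℕ → ℝ) : ER.Con → ℝ
  | ER.Con.one i => w i - 1
  | ER.Con.add i j k => w i + w j - w k
  | ER.Con.mul i j k => w i * w j - w k

theorem cv_zero (w : ℕ → ℝ) (c : ER.Con) : cv w c = 0 ↔ c.Holds w := by
  cases c <;> simp [cv, ER.Con.Holds, sub_eq_zero]

theorem eval_cT (f : ℕ → ℕ) (x : ℕ → ℝ) (c : ER.Con) :
    (cT f c).eval x = cv (fun i => x (f i)) c := by
  cases c <;> simp [cT, dfT, Tm.eval, cv, sub_eq_add_neg]

theorem cv_congr {w w' : ℕ → ℝ} {c : ER.Con} (h : ∀ i ∈ c.vars, w i = w' i) : cv w c = cv w' c := by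
  cases c <;> simp [ER.Con.vars] at h <;> simp [cv, h]

/-- The variables that have to be bounded. -/
def bvars (E : List ℕ) (S : List ER.Con) : List ℕ := E.map (fun i => 2 * i) ++ S.flatMap ER.Con.vars

/-- The core formula. -/
def core (E : List ℕ) (SF SG : List ER.Con) : Fm :=
  conj ([Fm.lt Tm.zero tD, Fm.le Tm.zero tR] ++
    (SF.map fun c => Fm.eq (cT yv c) Tm.zero) ++
    (SG.map fun c => Fm.le (sqq (cT wv c)) tD) ++
    (E.map fun i => Fm.le (sqq (dfT (Tm.var (yv (2 * i))) (Tm.var (wv (2 * i))))) tD) ++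
    ((bvars E SG).map fun i => Fm.le (sqq (Tm.var (wv i))) tR))

/-- The meaning of the core formula. -/
def CBad (E : List ℕ) (SF SG : List ER.Con) (v w : ℕ → ℝ) (R δ : ℝ) : Prop :=
  SysHolds v SF ∧ (∀ c ∈ SG, cv w c * cv w c ≤ δ) ∧
    (∀ i ∈ E, (v (2 * i) - w (2 * i)) * (v (2 * i) - w (2 * i)) ≤ δ) ∧
    ∀ i ∈ bvars E SG, w i * w i ≤ R

theorem holds_core (E : List ℕ) (SF SG : List ER.Con) (x : ℕ → ℝ) : (core E SF SG).Holds x ↔
    0 < x 4 ∧ 0 ≤ x 0 ∧ CBad E SF SG (fun i => x (yv i)) (fun i => x (wv i)) (x 0) (x 4) := by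
  unfold core CBad SysHolds
  simp only [holds_conj, List.forall_mem_append, List.forall_mem_map, List.forall_mem_cons,
    List.not_mem_nil, false_implies, implies_true, and_true]
  simp only [Fm.Holds, Tm.eval, tD, tR, sqq, dfT, eval_cT, cv_zero, ← sub_eq_add_neg]
  tauto

/-- The standard assignment. -/
noncomputable def stdB (R δ : ℝ) (v w : ℕ → ℝ) (j : ℕ) : ℝ :=
  if j = 0 then R else if j = 4 then δ
  else if j % 8 = 3 then v (j / 8) else if j % 8 = 7 then w (j / 8)
  else 2 ^ 2 ^ (j / 4)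

theorem core_complete {E : List ℕ} {SF SG : List ER.Con} {v w : ℕ → ℝ} {R δ : ℝ} (hδ : 0 < δ)
    (hR : 0 ≤ R) (h : CBad E SF SG v w R δ) :
    ∃ x : ℕ → ℝ, (core E SF SG).Holds x ∧ x 0 = R ∧ x 4 = δ ∧ (∀ j, x (vC j) = 2 ^ 2 ^ j) ∧
      (∀ j, x (vE j) = 2 ^ 2 ^ j) := by
  have e0 : stdB R δ v w 0 = R := by simp [stdB]
  have e4 : stdB R δ v w 4 = δ := by simp [stdB]
  have eC : ∀ j, stdB R δ v w (vC j) = 2 ^ 2 ^ j := by
    intro j
    unfold stdB vC
    rw [if_neg (by omega), if_neg (by omega), if_neg (by omega), if_neg (by omega)]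
    congr 2
    omega
  have eE : ∀ j, stdB R δ v w (vE j) = 2 ^ 2 ^ j := by
    intro j
    unfold stdB vE
    rw [if_neg (by omega), if_neg (by omega), if_neg (by omega), if_neg (by omega)]
    congr 2
    omega
  have ev : (fun i => stdB R δ v w (yv i)) = v := by
    funext i
    unfold stdB yv
    rw [if_neg (by omega), if_neg (by omega), if_pos (by omega)]
    congr 1
    omega
  have ew : (fun i => stdB R δ v w (wv i)) = w := by
    funext i
    unfold stdB wv
    rw [if_neg (by omega), if_neg (by omega), if_neg (by omega), if_pos (by omega)]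
    congr 1
    omega
  refine ⟨stdB R δ v w, (holds_core E SF SG _).2 ?_, e0, e4, eC, eE⟩
  rw [e0, e4, ev, ew]
  exact ⟨hδ, hR, h⟩

/-! ### Topology -/

/-- If the closure meets the set then the condition holds for a fixed `R` and all small `δ`. -/
theorem bad_of_meets (E : List ℕ) (F G : Fm) (h : Meets (E, F, G)) :
    ∃ R : ℝ, 0 ≤ R ∧ ∀ ε > 0, ∃ δ, 0 < δ ∧ δ < ε ∧ ∃ v w, CBad E (sysOf F) (sysOf G) v w R δ := by
  obtain ⟨x, hG, hx⟩ := h
  obtain ⟨w, hw, hSw⟩ := (sysOf_spec G).2 x hG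
  refine ⟨((bvars E (sysOf G)).map fun i => w i * w i).sum, ?_, fun ε hε => ?_⟩
  · apply List.sum_nonneg
    intro r hr
    rw [List.mem_map] at hr
    obtain ⟨i, _, rfl⟩ := hr
    exact mul_self_nonneg _
  · obtain ⟨y, hF, hy⟩ := hx (Real.sqrt (ε / 2)) (Real.sqrt_pos.2 (by positivity))
    obtain ⟨v, hv, hSv⟩ := (sysOf_spec F).2 y hF
    refine ⟨ε / 2, by positivity, by linarith, v, w, hSv, fun c hc => ?_, fun i hi => ?_,
      fun i hi => ?_⟩
    · rw [(cv_zero w c).2 (hSw c hc)]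
      simp only [mul_zero]
      positivity
    · rw [hv, hw]
      have h1 := (hy i hi).le
      have h2 : |y i - x i| * |y i - x i| ≤ Real.sqrt (ε / 2) * Real.sqrt (ε / 2) :=
        mul_le_mul h1 h1 (abs_nonneg _) (Real.sqrt_nonneg _)
      rw [abs_mul_abs_self, Real.mul_self_sqrt (by positivity)] at h2
      exact h2
    · apply List.single_le_sum
      · intro r hr
        rw [List.mem_map] at hr
        obtain ⟨i, _, rfl⟩ := hr
        exact mul_self_nonneg _
      · exact List.mem_map.2 ⟨i, hi, rfl⟩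

/-- If the condition holds for arbitrarily small `δ` with bounded `R` then the closure meets the
set. -/
theorem meets_of_bad (E : List ℕ) (F G : Fm) (R₀ : ℝ)
    (h : ∀ ε > 0, ∃ δ R, 0 < δ ∧ δ < ε ∧ R ≤ R₀ ∧ ∃ v w, CBad E (sysOf F) (sysOf G) v w R δ) :
    Meets (E, F, G) := by
  have h1 : ∀ k : ℕ, ∃ (δ : ℝ) (v w : ℕ → ℝ), 0 < δ ∧ δ < 1 / (k + 1) ∧
      CBad E (sysOf F) (sysOf G) v w R₀ δ := by
    intro k
    obtain ⟨δ, R, h1, h2, h3, v, w, h4, h5, h6, h7⟩ := h (1 / (k + 1)) (by positivity)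
    exact ⟨δ, v, w, h1, h2, h4, h5, h6, fun i hi => (h7 i hi).trans h3⟩
  choose δ v w hδ0 hδ hbad using h1
  set T := bvars E (sysOf G) with hT
  let w' : ℕ → (ℕ → ℝ) := fun k i => if i ∈ T then w k i else 0
  have hcomp : IsCompact (Set.univ.pi fun _ : ℕ => Set.Icc (-(|R₀| + 1)) (|R₀| + 1)) :=
    isCompact_univ_pi fun _ => isCompact_Icc
  have hmem : ∀ k, w' k ∈ Set.univ.pi fun _ : ℕ => Set.Icc (-(|R₀| + 1)) (|R₀| + 1) := by
    intro k i _
    have hR1 : 0 ≤ |R₀| + 1 := by have := abs_nonneg R₀; linarith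
    show w' k i ∈ Set.Icc (-(|R₀| + 1)) (|R₀| + 1)
    by_cases hi : i ∈ T
    · have e : w' k i = w k i := if_pos hi
      rw [e]
      have h1 := (hbad k).2.2.2 i hi
      have h2 := le_abs_self R₀
      rw [Set.mem_Icc, ← abs_le]
      refine abs_le_of_sq_le_sq (a := w k i) ?_ hR1
      nlinarith [abs_nonneg R₀]
    · have e : w' k i = 0 := if_neg hi
      rw [e]
      exact ⟨by linarith, hR1⟩
  obtain ⟨w₀, -, σ, hσ, hlim⟩ := hcomp.tendsto_subseq hmem
  have hlim' : ∀ i, Tendsto (fun k => w' (σ k) i) atTop (𝓝 (w₀ i)) := fun i =>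
    (tendsto_pi_nhds.1 hlim) i
  have hδlim : Tendsto (fun k => δ (σ k)) atTop (𝓝 0) := by
    refine squeeze_zero (fun k => (hδ0 _).le) (fun k => (hδ _).le) ?_
    exact (tendsto_one_div_add_atTop_nhds_zero_nat (𝕜 := ℝ)).comp hσ.tendsto_atTop
  have hsys : SysHolds w₀ (sysOf G) := by
    intro c hc
    rw [← cv_zero]
    have hc1 : Tendsto (fun k => cv (w' (σ k)) c) atTop (𝓝 (cv w₀ c)) := by
      cases c with
      | one i => exact (hlim' i).sub_const 1
      | add i j k => exact ((hlim' i).add (hlim' j)).sub (hlim' k)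
      | mul i j k => exact ((hlim' i).mul (hlim' j)).sub (hlim' k)
    have hc2 : ∀ k, cv (w' k) c = cv (w k) c := by
      intro k
      refine cv_congr fun i hi => if_pos ?_
      exact List.mem_append.2 (Or.inr (List.mem_flatMap.2 ⟨c, hc, hi⟩))
    have hc3 : cv w₀ c * cv w₀ c ≤ 0 := by
      refine le_of_tendsto_of_tendsto (hc1.mul hc1) hδlim (Eventually.of_forall fun k => ?_)
      show cv (w' (σ k)) c * cv (w' (σ k)) c ≤ δ (σ k)
      rw [hc2]
      exact (hbad _).2.1 c hc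
    exact mul_self_eq_zero.1 (le_antisymm hc3 (mul_self_nonneg _))
  refine ⟨fun i => w₀ (2 * i), (sysOf_spec G).1 w₀ hsys, fun ε hε => ?_⟩
  have hE : ∀ᶠ k in atTop, ∀ i ∈ E, |w' (σ k) (2 * i) - w₀ (2 * i)| < ε / 2 := by
    have h2 : ∀ l : List ℕ, ∀ᶠ k in atTop, ∀ i ∈ l, |w' (σ k) (2 * i) - w₀ (2 * i)| < ε / 2 := by
      intro l
      induction l with
      | nil => simp
      | cons a l ih =>
        have h3 := (Metric.tendsto_atTop.1 (hlim' (2 * a))) (ε / 2) (by positivity)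
        obtain ⟨N, hN⟩ := h3
        filter_upwards [ih, eventually_ge_atTop N] with k hk1 hk2 i hi
        rcases List.mem_cons.1 hi with rfl | hi
        · have := hN k hk2
          rwa [Real.dist_eq] at this
        · exact hk1 i hi
    exact h2 E
  have hδ2 : ∀ᶠ k in atTop, δ (σ k) < ε / 2 * (ε / 2) :=
    hδlim.eventually_lt_const (by positivity)
  obtain ⟨k, hk1, hk2⟩ := (hE.and hδ2).exists
  refine ⟨fun i => v (σ k) (2 * i), (sysOf_spec F).1 _ (hbad (σ k)).1, fun i hi => ?_⟩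
  have h3 := (hbad (σ k)).2.2.1 i hi
  have h4 : w' (σ k) (2 * i) = w (σ k) (2 * i) :=
    if_pos (List.mem_append.2 (Or.inl (List.mem_map.2 ⟨i, hi, rfl⟩)))
  have h5 := hk1 i hi
  rw [h4] at h5
  have h6 : |v (σ k) (2 * i) - w (σ k) (2 * i)| < ε / 2 := by
    refine abs_lt_of_sq_lt_sq (a := v (σ k) (2 * i) - w (σ k) (2 * i)) ?_ (by positivity)
    nlinarith
  show |v (σ k) (2 * i) - w₀ (2 * i)| < ε
  calc |v (σ k) (2 * i) - w₀ (2 * i)|
      = |(v (σ k) (2 * i) - w (σ k) (2 * i)) + (w (σ k) (2 * i) - w₀ (2 * i))| := by congr 1; ring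
    _ ≤ |v (σ k) (2 * i) - w (σ k) (2 * i)| + |w (σ k) (2 * i) - w₀ (2 * i)| := abs_add_le _ _
    _ < ε / 2 + ε / 2 := add_lt_add h6 h5
    _ = ε := by ring

/-! ### The existential sentence -/

/-- The core formula with the explicit bound on `R`. -/
def coreR (E : List ℕ) (SF SG : List ER.Con) : Fm :=
  let K := kap (sysOf (core E SF SG)).length
  conj (core E SF SG :: (chain vC K ++ [Fm.le tR (Tm.var (vC K))]))

/-- The existential formula expressing that the closure meets the set. -/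
def fin (E : List ℕ) (SF SG : List ER.Con) : Fm :=
  let K := kap (sysOf (coreR E SF SG)).length
  conj (coreR E SF SG :: (chain vE K ++ [Fm.le (Tm.mul tD (Tm.var (vE K))) Tm.one]))

theorem coreR_holds {E : List ℕ} {SF SG : List ER.Con} {x : ℕ → ℝ} : (coreR E SF SG).Holds x ↔
    (core E SF SG).Holds x ∧ (∀ ψ ∈ chain vC (kap (sysOf (core E SF SG)).length), ψ.Holds x) ∧
      x 0 ≤ x (vC (kap (sysOf (core E SF SG)).length)) := by
  unfold coreR
  simp only [holds_conj, List.forall_mem_cons, List.forall_mem_append, List.not_mem_nil,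
    false_implies, implies_true, and_true]
  simp only [Fm.Holds, Tm.eval, tR]

theorem fin_holds {E : List ℕ} {SF SG : List ER.Con} {x : ℕ → ℝ} : (fin E SF SG).Holds x ↔
    (coreR E SF SG).Holds x ∧ (∀ ψ ∈ chain vE (kap (sysOf (coreR E SF SG)).length), ψ.Holds x) ∧
      x 4 * x (vE (kap (sysOf (coreR E SF SG)).length)) ≤ 1 := by
  unfold fin
  simp only [holds_conj, List.forall_mem_cons, List.forall_mem_append, List.not_mem_nil,
    false_implies, implies_true, and_true]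
  simp only [Fm.Holds, Tm.eval, tD]

/-- The closure meets the set if and only if the existential sentence is true. -/
theorem meets_iff (E : List ℕ) (F G : Fm) :
    Meets (E, F, G) ↔ ETR (fin E (sysOf F) (sysOf G)) := by
  generalize hSF : sysOf F = SF
  generalize hSG : sysOf G = SG
  constructor
  · intro h
    obtain ⟨R, hR, hbad⟩ := bad_of_meets E F G h
    rw [hSF, hSG] at hbad
    have hgap := gap_bounded (core E SF SG) 0 4 (fun x hx => ((holds_core E SF SG x).1 hx).2.1)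
      (fun x hx => ((holds_core E SF SG x).1 hx).1) R (fun ε hε => by
        obtain ⟨δ, h1, h2, v, w, h3⟩ := hbad ε hε
        obtain ⟨x, hx, e0, e4, -, -⟩ := core_complete h1 hR h3
        exact ⟨x, hx, e0.le, by rw [e4]; exact h2⟩)
    obtain ⟨x, hx, hx0, hx4⟩ := hgap (1 / 2 ^ 2 ^ (kap (sysOf (coreR E SF SG)).length))
      (by positivity)
    obtain ⟨a1, a2, a3⟩ := (holds_core E SF SG x).1 hx
    obtain ⟨y, hy, e0, e4, eC, eE⟩ := core_complete a1 a2 a3
    refine ⟨y, fin_holds.2 ⟨coreR_holds.2 ⟨hy, chain_complete eC _, ?_⟩,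
      chain_complete eE _, ?_⟩⟩
    · rw [e0, eC]
      exact hx0
    · rw [e4, eE]
      rw [lt_div_iff₀ (by positivity)] at hx4
      exact hx4.le
  · rintro ⟨x₀, h₀⟩
    obtain ⟨h1, h2, h3⟩ := fin_holds.1 h₀
    rw [chain_sound h2] at h3
    have hgap := gap_small (coreR E SF SG) 4
      (fun x hx => ((holds_core E SF SG x).1 (coreR_holds.1 hx).1).1) h1 h3
    refine meets_of_bad E F G (2 ^ 2 ^ (kap (sysOf (core E SF SG)).length)) fun ε hε => ?_
    rw [hSF, hSG]
    obtain ⟨x, hx, hx4⟩ := hgap ε hε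
    obtain ⟨b1, b2, b3⟩ := coreR_holds.1 hx
    obtain ⟨c1, c2, c3⟩ := (holds_core E SF SG x).1 b1
    refine ⟨x 4, x 0, c1, hx4, ?_, _, _, c3⟩
    rw [chain_sound b2] at b3
    exact b3

/-! ### Polynomial time -/

section

variable {α : Type} [TEnc α]

theorem poly_yv {i : α → ℕ} (hi : NPC.Poly i) : NPC.Poly (fun a => yv (i a)) :=
  NPC.Poly.add (NPC.Poly.mul (NPC.Poly.const 8) hi) (NPC.Poly.const 3)

theorem poly_wv {i : α → ℕ} (hi : NPC.Poly i) : NPC.Poly (fun a => wv (i a)) :=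
  NPC.Poly.add (NPC.Poly.mul (NPC.Poly.const 8) hi) (NPC.Poly.const 7)

theorem poly_dfT {s t : α → Tm} (hs : NPC.Poly s) (ht : NPC.Poly t) : NPC.Poly (fun a => dfT (s a) (t a)) :=
  poly_tadd hs (poly_tneg ht)

theorem poly_sqq {s : α → Tm} (hs : NPC.Poly s) : NPC.Poly (fun a => sqq (s a)) :=
  poly_tmul hs hs

theorem cT_eq (f : ℕ → ℕ) (c : ER.Con) : cT f c =
    if c.code.1 = 0 then dfT (Tm.var (f c.code.2.1)) Tm.one
    else if c.code.1 = 1 then dfT (Tm.add (Tm.var (f c.code.2.1)) (Tm.var (f c.code.2.2.1)))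
      (Tm.var (f c.code.2.2.2))
    else dfT (Tm.mul (Tm.var (f c.code.2.1)) (Tm.var (f c.code.2.2.1)))
      (Tm.var (f c.code.2.2.2)) := by
  cases c <;> rfl

theorem poly_cT {f : ℕ → ℕ} (hf : NPC.Poly f) {c : α → ER.Con} (hc : NPC.Poly c) :
    NPC.Poly (fun a => cT f (c a)) := by
  simp only [cT_eq]
  have h0 := poly_con_code hc
  have i1 := poly_tvar (hf.comp (NPC.Poly.fst (NPC.Poly.snd h0)))
  have i2 := poly_tvar (hf.comp (NPC.Poly.fst (NPC.Poly.snd (NPC.Poly.snd h0))))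
  have i3 := poly_tvar (hf.comp (NPC.Poly.snd (NPC.Poly.snd (NPC.Poly.snd h0))))
  exact NPC.Poly.ite (NPC.Poly.decide_eq (NPC.Poly.fst h0) (NPC.Poly.const 0)) (poly_dfT i1 (NPC.Poly.const _))
    (NPC.Poly.ite (NPC.Poly.decide_eq (NPC.Poly.fst h0) (NPC.Poly.const 1)) (poly_dfT (poly_tadd i1 i2) i3)
      (poly_dfT (poly_tmul i1 i2) i3))

theorem poly_core {E : α → List ℕ} {SF SG : α → List ER.Con} (hE : NPC.Poly E) (hF : NPC.Poly SF)
    (hG : NPC.Poly SG) : NPC.Poly (fun a => core (E a) (SF a) (SG a)) := by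
  unfold core
  refine poly_conj (NPC.Poly.append (NPC.Poly.append (NPC.Poly.append (NPC.Poly.append
    (NPC.Poly.const _) ?_) ?_) ?_) ?_)
  · exact NPC.Poly.map (F := fun _ c => Fm.eq (cT yv c) Tm.zero) hF
      (poly_feq (poly_cT (poly_yv NPC.Poly.id) (NPC.Poly.snd NPC.Poly.id)) (NPC.Poly.const _))
  · exact NPC.Poly.map (F := fun _ c => Fm.le (sqq (cT wv c)) tD) hG
      (poly_fle (poly_sqq (poly_cT (poly_wv NPC.Poly.id) (NPC.Poly.snd NPC.Poly.id))) (NPC.Poly.const _))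
  · refine NPC.Poly.map (F := fun _ i =>
      Fm.le (sqq (dfT (Tm.var (yv (2 * i))) (Tm.var (wv (2 * i))))) tD) hE ?_
    have h2 : NPC.Poly (fun q : α × ℕ => 2 * q.2) := NPC.Poly.mul (NPC.Poly.const 2) (NPC.Poly.snd NPC.Poly.id)
    exact poly_fle (poly_sqq (poly_dfT (poly_tvar (poly_yv h2)) (poly_tvar (poly_wv h2))))
      (NPC.Poly.const _)
  · unfold bvars
    refine NPC.Poly.map (F := fun _ i => Fm.le (sqq (Tm.var (wv i))) tR) (NPC.Poly.append ?_ ?_) ?_
    · exact NPC.Poly.map (F := fun _ i => 2 * i) hE (NPC.Poly.mul (NPC.Poly.const 2) (NPC.Poly.snd NPC.Poly.id))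
    · exact poly_varsOf hG
    · exact poly_fle (poly_sqq (poly_tvar (poly_wv (NPC.Poly.snd NPC.Poly.id)))) (NPC.Poly.const _)

theorem poly_coreR {E : α → List ℕ} {SF SG : α → List ER.Con} (hE : NPC.Poly E) (hF : NPC.Poly SF)
    (hG : NPC.Poly SG) : NPC.Poly (fun a => coreR (E a) (SF a) (SG a)) := by
  have hc := poly_core hE hF hG
  have hK := upoly_kap hc
  unfold coreR
  refine poly_conj (NPC.Poly.cons hc (NPC.Poly.append (poly_chain (poly_vC NPC.Poly.id) hK)
    (NPC.Poly.cons ?_ (NPC.Poly.const []))))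
  exact poly_fle (NPC.Poly.const _) (poly_tvar (poly_vC hK.toPoly))

theorem poly_fin {E : α → List ℕ} {SF SG : α → List ER.Con} (hE : NPC.Poly E) (hF : NPC.Poly SF)
    (hG : NPC.Poly SG) : NPC.Poly (fun a => fin (E a) (SF a) (SG a)) := by
  have hc := poly_coreR hE hF hG
  have hK := upoly_kap hc
  unfold fin
  refine poly_conj (NPC.Poly.cons hc (NPC.Poly.append (poly_chain (poly_vE NPC.Poly.id) hK)
    (NPC.Poly.cons ?_ (NPC.Poly.const []))))
  exact poly_fle (poly_tmul (NPC.Poly.const _) (poly_tvar (poly_vE hK.toPoly))) (NPC.Poly.const _)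

end

/-- The existential formula for an instance of `Meets`. -/
def mFm (a : List ℕ × Fm × Fm) : Fm := fin a.1 (sysOf a.2.1) (sysOf a.2.2)

theorem meets_iff' (a : List ℕ × Fm × Fm) : Meets a ↔ ETR (mFm a) :=
  meets_iff a.1 a.2.1 a.2.2

theorem poly_mFm {α : Type} [TEnc α] {f : α → List ℕ × Fm × Fm} (hf : NPC.Poly f) :
    NPC.Poly (fun a => mFm (f a)) :=
  poly_fin (NPC.Poly.fst hf) (poly_sysOf (NPC.Poly.fst (NPC.Poly.snd hf))) (poly_sysOf (NPC.Poly.snd (NPC.Poly.snd hf)))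

theorem meets_inER : InER (lang Meets) :=
  InER.of_poly (poly_mFm NPC.Poly.id) meets_iff'

/-- The formula of a system. -/
def sysFm (S : List ER.Con) : Fm := conj (S.map fun c => Fm.eq (cT (fun i => i) c) Tm.zero)

theorem holds_sysFm (S : List ER.Con) (x : ℕ → ℝ) : (sysFm S).Holds x ↔ SysHolds x S := by
  unfold sysFm SysHolds
  simp only [holds_conj, List.forall_mem_map]
  refine forall₂_congr fun c _ => ?_
  simp only [Fm.Holds, Tm.eval, eval_cT, cv_zero]

theorem poly_sysFm {α : Type} [TEnc α] {S : α → List ER.Con} (hS : NPC.Poly S) :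
    NPC.Poly (fun a => sysFm (S a)) :=
  poly_conj (NPC.Poly.map (F := fun _ c => Fm.eq (cT (fun i => i) c) Tm.zero) hS
    (poly_feq (poly_cT NPC.Poly.id (NPC.Poly.snd NPC.Poly.id)) (NPC.Poly.const _)))

theorem meets_complete : ERComplete (lang Meets) := by
  refine ⟨meets_inER, ERHard.of_sys (f := fun S => ([], sysFm S, tt)) ?_ fun S => ?_⟩
  · exact NPC.Poly.pair (NPC.Poly.const _) (NPC.Poly.pair (poly_sysFm NPC.Poly.id) (NPC.Poly.const _))
  · constructor
    · rintro ⟨v, hv⟩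
      exact ⟨fun _ => 0, holds_tt _, fun ε _ => ⟨v, (holds_sysFm S v).2 hv, by simp⟩⟩
    · rintro ⟨x, -, hx⟩
      obtain ⟨y, hy, -⟩ := hx 1 one_pos
      exact ⟨y, (holds_sysFm S y).1 hy⟩

end Pool.Agent.Y211.CL
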