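import Pool.Agent.Y211.CL.Apps

/-!
# Compactness
-/

namespace Pool.Agent.Y211.CL

open Pool.Agent.NPC Pool.Agent.NPC.ER Pool.Agent.NPC.H612
open Filter Topology

/-- The bound of the sizes. -/
def szK (φ : QF) : ℕ := (szList φ).length

/-- The sum of the squares of the relevant coordinates (and of one more). -/
def normT (m : ℕ) : Tm := sumT ((List.range m).map fun i => sqq (Tm.var (vP i 0)))

theorem eval_normT (m : ℕ) (x : ℕ → ℝ) :
    (normT m).eval x = ((List.range m).map fun i => x (vP i 0) * x (vP i 0)).sum := by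
  unfold normT
  rw [eval_sumT, List.map_map]
  rfl

/-- The instance of `Meets` for unboundedness. -/
def uInst (n : ℕ) (φ : QF) : List ℕ × Fm × Fm :=
  ([0], Fm.and (qfm (min n (szK φ)) (szK φ) φ)
    (Fm.eq (Tm.mul (Tm.var 0) (normT (min n (szK φ + 1)))) Tm.one),
    Fm.eq (Tm.var 0) Tm.zero)

theorem exists_big {n L : ℕ} {φ : QF} (hs : Szd L φ) (h : ¬ Bornology.IsBounded (Sol n φ)) (M : ℝ)
    (hM : 0 ≤ M) : ∃ z ∈ Sol n φ, ∃ i < min n (L + 1), M ≤ |xt z i| := by
  have h1 : ∃ z ∈ Sol n φ, M < ‖z‖ := by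
    by_contra hcon
    push Not at hcon
    exact h (isBounded_iff_forall_norm_le.2 ⟨M, hcon⟩)
  obtain ⟨z, hz, hzM⟩ := h1
  have h2 : ∃ i : Fin n, M < |z i| := by
    by_contra hcon
    push Not at hcon
    have := (pi_norm_le_iff_of_nonneg (x := z) hM).2 hcon
    linarith
  obtain ⟨i, hi⟩ := h2
  by_cases hiL : (i : ℕ) < L + 1
  · exact ⟨z, hz, i, lt_min i.2 hiL, by rw [xt_fin]; exact hi.le⟩
  · have hL : L < n := by have := i.2; omega
    refine ⟨Function.update z ⟨L, hL⟩ M, ?_, L, lt_min hL (Nat.lt_succ_self _), ?_⟩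
    · refine qfm_sound hs (qfm_complete hs hz (fun _ => 0)) _ fun j hj => ?_
      have hjn : j < n := hj.trans_le (min_le_left _ _)
      have hjL : j < L := hj.trans_le (min_le_right _ _)
      rw [stP_vP0, xt_of_lt _ hjn, xt_of_lt _ hjn, Function.update_of_ne]
      intro h
      rw [Fin.mk.injEq] at h
      omega
    · rw [xt_of_lt _ hL, Function.update_self]
      exact le_abs_self M

theorem unbounded_iff (n : ℕ) (φ : QF) :
    ¬ Bornology.IsBounded (Sol n φ) ↔ Meets (uInst n φ) := by
  have hs := szd_self φ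
  unfold uInst
  change Szd (szK φ) _ at hs
  generalize szK φ = L at hs
  constructor
  · intro h
    refine ⟨fun _ => 0, by simp [Fm.Holds, Tm.eval], fun ε hε => ?_⟩
    obtain ⟨z, hz, i, hi, hM⟩ := exists_big hs h (1 + 2 / ε) (by positivity)
    set s := ((List.range (min n (L + 1))).map fun i => xt z i * xt z i).sum with hsdef
    have h1 : xt z i * xt z i ≤ s := by
      apply List.single_le_sum
      · intro r hr
        rw [List.mem_map] at hr
        obtain ⟨j, _, rfl⟩ := hr
        exact mul_self_nonneg _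
      · exact List.mem_map.2 ⟨i, List.mem_range.2 hi, rfl⟩
    have h2 : 2 / ε < s := by
      have h3 : (1 + 2 / ε) * (1 + 2 / ε) ≤ |xt z i| * |xt z i| :=
        mul_le_mul hM hM (by positivity) (abs_nonneg _)
      rw [abs_mul_abs_self] at h3
      have h4 : 0 < 2 / ε := by positivity
      nlinarith
    have hs0 : 0 < s := lt_trans (by positivity) h2
    refine ⟨stP z (fun _ => 1 / s), ⟨qfm_complete hs hz _, ?_⟩, ?_⟩
    · show (Tm.mul (Tm.var 0) (normT (min n (L + 1)))).eval _ = _
      simp only [Tm.eval]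
      rw [eval_normT, stP_of_ne _ _ (by norm_num)]
      simp only [stP_vP0]
      rw [← hsdef]
      field_simp
    · intro j hj
      rw [List.mem_singleton] at hj
      subst hj
      rw [stP_of_ne _ _ (by norm_num), sub_zero, abs_of_pos (by positivity)]
      rw [div_lt_iff₀ hs0]
      rw [div_lt_iff₀ hε] at h2
      linarith
  · rintro ⟨X, hX, hlim⟩ hb
    obtain ⟨C, hC⟩ := isBounded_iff_forall_norm_le.1 hb
    have hX0 : X 0 = 0 := hX
    set K : ℝ := (n : ℝ) * (C * C) + 1 with hK
    have hK0 : 0 < K := by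
      have : 0 ≤ (n : ℝ) * (C * C) := mul_nonneg (Nat.cast_nonneg _) (mul_self_nonneg _)
      linarith
    obtain ⟨Y, ⟨hY, hY1⟩, hd⟩ := hlim (1 / K) (by positivity)
    have hd0 := hd 0 (by simp)
    rw [hX0, sub_zero] at hd0
    have hz : (fun i : Fin n => Y (vP i 0)) ∈ Sol n φ := by
      refine qfm_sound hs hY _ fun j hj => ?_
      rw [xt_of_lt _ (hj.trans_le (min_le_left _ _))]
    have hzC := hC _ hz
    have hC0 : 0 ≤ C := (norm_nonneg _).trans hzC
    have hcoord : ∀ i < n, Y (vP i 0) * Y (vP i 0) ≤ C * C := by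
      intro i hi
      have h1 := (pi_norm_le_iff_of_nonneg hC0).1 hzC ⟨i, hi⟩
      rw [Real.norm_eq_abs] at h1
      have h2 := mul_le_mul h1 h1 (abs_nonneg _) hC0
      rwa [abs_mul_abs_self] at h2
    have hsum : (normT (min n (L + 1))).eval Y ≤ (n : ℝ) * (C * C) := by
      rw [eval_normT]
      refine (List.sum_le_card_nsmul _ (C * C) ?_).trans ?_
      · intro r hr
        rw [List.mem_map] at hr
        obtain ⟨i, hi, rfl⟩ := hr
        exact hcoord i ((List.mem_range.1 hi).trans_le (min_le_left _ _))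
      · rw [nsmul_eq_mul, List.length_map, List.length_range]
        refine mul_le_mul_of_nonneg_right ?_ (mul_self_nonneg _)
        exact_mod_cast min_le_left _ _
    have hsum0 : 0 ≤ (normT (min n (L + 1))).eval Y := by
      rw [eval_normT]
      apply List.sum_nonneg
      intro r hr
      rw [List.mem_map] at hr
      obtain ⟨i, _, rfl⟩ := hr
      exact mul_self_nonneg _
    have hprod : Y 0 * (normT (min n (L + 1))).eval Y = 1 := hY1
    have h5 : Y 0 * (normT (min n (L + 1))).eval Y ≤
        |Y 0| * (normT (min n (L + 1))).eval Y :=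
      mul_le_mul_of_nonneg_right (le_abs_self _) hsum0
    have h6 : |Y 0| * (normT (min n (L + 1))).eval Y ≤ |Y 0| * K :=
      mul_le_mul_of_nonneg_left (by linarith) (abs_nonneg _)
    have h7 : |Y 0| * K < 1 := by
      rw [lt_div_iff₀ hK0] at hd0
      exact hd0
    linarith

theorem not_closed_iff' (n : ℕ) (φ : QF) :
    ¬ IsClosed (Sol n φ) ↔ (closure (Sol n φ) ∩ Sol n (QF.not φ)).Nonempty := by
  rw [← closure_subset_iff_isClosed, Set.not_subset]
  rfl

theorem not_compact_iff (n : ℕ) (φ : QF) : ¬ IsCompact (Sol n φ) ↔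
    ETR (Fm.or (mFm (mInst n φ (QF.not φ))) (mFm (uInst n φ))) := by
  rw [ETR_or, ← meets_iff', ← meets_iff', ← nonempty_iff_meets, ← unbounded_iff,
    ← not_closed_iff', ← not_and_or, Metric.isCompact_iff_isClosed_bounded]

theorem poly_normT {α : Type} [TEnc α] {m : α → ℕ} (hm : UPoly m) :
    NPC.Poly (fun a => normT (m a)) :=
  poly_sumT (NPC.Poly.map (F := fun _ i => sqq (Tm.var (vP i 0))) hm.range
    (poly_sqq (poly_tvar (poly_vP (NPC.Poly.snd NPC.Poly.id) (NPC.Poly.const 0)))))

theorem poly_uInst {α : Type} [TEnc α] {n : α → ℕ} {φ : α → QF} (hn : NPC.Poly n)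
    (h : NPC.Poly φ) : NPC.Poly (fun a => uInst (n a) (φ a)) := by
  have hL : UPoly (fun a => szK (φ a)) := UPoly.length (poly_szList h)
  have hm := upoly_minL hn hL
  have hL1 : UPoly (fun a => szK (φ a) + 1) := UPoly.add hL (UPoly.const 1)
  have hm1 := upoly_minL hn hL1
  exact NPC.Poly.pair (NPC.Poly.const _) (NPC.Poly.pair
    (poly_fand (poly_qfm hm hL h) (poly_feq (poly_tmul (NPC.Poly.const _) (poly_normT hm1))
      (NPC.Poly.const _))) (NPC.Poly.const _))

theorem compactness_inAR : InAR (lang Compactness) := by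
  refine inAR_valid (b := fun a : ℕ × QF => validB a.1 a.2)
    (φ := fun a => Fm.or (mFm (mInst a.1 a.2 (QF.not a.2))) (mFm (uInst a.1 a.2))) ?_ ?_
    fun a => ?_
  · exact poly_vB (NPC.Poly.fst NPC.Poly.id) (NPC.Poly.snd NPC.Poly.id)
  · have h1 : NPC.Poly (fun a : ℕ × QF => a.1) := NPC.Poly.fst NPC.Poly.id
    have h2 : NPC.Poly (fun a : ℕ × QF => a.2) := NPC.Poly.snd NPC.Poly.id
    exact poly_for (poly_mFm (poly_mInst h1 h2 (poly_qnot h2))) (poly_mFm (poly_uInst h1 h2))
  · rw [← not_compact_iff, not_not, validB_iff]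
    rfl

theorem sat_iff_not_compact (S : List ER.Con) : Sat S ↔ ¬ Compactness (clInst S) := by
  have h1 := clInst_valid S
  constructor
  · rintro hS ⟨-, hc⟩
    have := (closed_iff_not_sat S).1 hc.isClosed
    exact this hS
  · intro h
    by_contra hS
    refine h ⟨h1, ?_⟩
    have e : Sol (clInst S).1 (clInst S).2 = ∅ := by
      rw [Set.eq_empty_iff_forall_notMem]
      intro x hx
      exact hS ⟨_, ((clInst_holds S x).1 hx).1⟩
    rw [e]
    exact isCompact_empty

/-- Compactness of semialgebraic sets is `∀ℝ`-complete. -/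
theorem compactness_complete : ARComplete (lang Compactness) :=
  ⟨compactness_inAR, ARHard.of_sys poly_clInst sat_iff_not_compact⟩

end Pool.Agent.Y211.CL
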