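import Pool.Agent.Y211.CL.Cont

/-!
# Hardness of continuity, for functions defined everywhere
-/

namespace Pool.Agent.Y211.CL

open Pool.Agent.NPC Pool.Agent.NPC.ER Pool.Agent.NPC.H612
open Filter Topology

/-- Instances `(n, φ)` such that the set of `φ` is the graph of a function `ℝⁿ → ℝ`. -/
def FunctionGraph (a : ℕ × QF) : Prop :=
  a.2.Valid (a.1 + 1) ∧ ∃ f : (Fin a.1 → ℝ) → ℝ,
    Sol (a.1 + 1) a.2 = {z | z (Fin.last a.1) = f (fun i : Fin a.1 => z i.castSucc)}

/-- `∀ℝ`-hardness, even for the instances that satisfy `Pr`: every language in `∀ℝ` reduces to `P`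
by a polynomial-time computable function all of whose values satisfy `Pr`. -/
def ARHardWithin {α : Type} [TEnc α] (Pr P : α → Prop) : Prop :=
  ∀ L : Set (List Bool), InAR L → ∃ h : List Bool → α, PolyTime (fun w => bits (h w)) ∧
    (∀ w, Pr (h w)) ∧ ∀ w, w ∈ L ↔ P (h w)

theorem ARHardWithin.of_sys {α : Type} [TEnc α] {Pr P : α → Prop} {f : List ER.Con → α}
    (hf : NPC.Poly f) (hPr : ∀ S, Pr (f S)) (h : ∀ S, Sat S ↔ ¬ P (f S)) : ARHardWithin Pr P := by
  rintro L' ⟨g, hg, hL⟩
  have h1 : PC (id : List Bool → List Bool) (bits : Fm → List Bool) g :=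
    H642R2.TMSim.polyTime_toPC hg
  have h2 : NPC.Poly (fun φ : Fm => f (sysOf φ)) := NPC.Poly.comp hf (poly_sysOf NPC.Poly.id)
  have h3 : PC (id : List Bool → List Bool) (bits : α → List Bool) (fun x => f (sysOf (g x))) :=
    PC.comp (g := fun φ : Fm => f (sysOf φ)) (eb := (bits : Fm → List Bool)) h2 h1
  have h4 : PC (id : List Bool → List Bool) (id : List Bool → List Bool)
    (fun x => bits (f (sysOf (g x)))) := h3
  refine ⟨fun x => f (sysOf (g x)), PC.toPolyTime h4, fun w => hPr _, fun x => ?_⟩
  have h5 := hL x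
  rw [Set.mem_compl_iff, ← sat_sysOf, h] at h5
  exact not_iff_not.1 h5

theorem ARHardWithin.toARHard {α : Type} [TEnc α] {Pr P : α → Prop} (h : ARHardWithin Pr P) :
    ARHard (lang P) := by
  intro L hL
  obtain ⟨f, hf, _, h1⟩ := h L hL
  refine ⟨fun w => bits (f w), hf, fun w => ?_⟩
  rw [h1]
  constructor
  · intro hP
    exact ⟨_, rfl, hP⟩
  · rintro ⟨a, ha, hP⟩
    rwa [bits_injective ha] at hP

theorem pval_craw' (V : List ℕ) (c : ER.Con) {m : ℕ} (hm : V.length + 1 ≤ m) (x : Fin m → ℝ) :
    pval x (collect m (craw V c)) = 0 ↔ c.Holds (fun i => xt x (V.idxOf i)) := by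
  unfold pval
  rw [aeval_collect _ (fun p hp i hi => (craw_lt V c p hp i hi).trans_le hm)]
  cases c with
  | one i =>
    simp only [craw, rawEval, sgn, List.map_cons, List.map_nil, List.sum_cons, List.sum_nil,
      List.prod_cons, List.prod_nil, ER.Con.Holds]
    constructor
    · intro h; norm_num at h; linarith
    · intro h; norm_num; linarith
  | add i j k =>
    simp only [craw, rawEval, sgn, List.map_cons, List.map_nil, List.sum_cons, List.sum_nil,
      List.prod_cons, List.prod_nil, ER.Con.Holds]
    constructor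
    · intro h; norm_num at h; linarith
    · intro h; norm_num; linarith
  | mul i j k =>
    simp only [craw, rawEval, sgn, List.map_cons, List.map_nil, List.sum_cons, List.sum_nil,
      List.prod_cons, List.prod_nil, ER.Con.Holds]
    constructor
    · intro h; norm_num at h; linarith
    · intro h; norm_num; linarith

theorem pval_var {m j : ℕ} (hj : j < m) (x : Fin m → ℝ) :
    pval x (collect m [(false, [j])]) = xt x j := by
  unfold pval
  rw [aeval_collect _ (by simpa using hj)]
  simp [rawEval, sgn]

theorem pval_varOne {m j : ℕ} (hj : j < m) (x : Fin m → ℝ) :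
    pval x (collect m [(false, [j]), (true, [])]) = xt x j - 1 := by
  unfold pval
  rw [aeval_collect _ (by simpa using hj)]
  simp [rawEval, sgn]
  ring

/-- The system together with `t > 0`. -/
def phiU (S : List ER.Con) : QF :=
  qconj (S.map fun c => QF.eqZ (collect ((varsOf S).length + 2) (craw (varsOf S) c)))
    (QF.gtZ (collect ((varsOf S).length + 2) [(false, [(varsOf S).length])]))

/-- The characteristic function of the set of solutions with `t > 0`. -/
def contInst (S : List ER.Con) : ℕ × QF :=
  ((varsOf S).length + 1,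
    QF.or
      (QF.and (QF.eqZ (collect ((varsOf S).length + 2) [(false, [(varsOf S).length + 1])]))
        (QF.not (phiU S)))
      (QF.and (QF.eqZ (collect ((varsOf S).length + 2)
        [(false, [(varsOf S).length + 1]), (true, [])])) (phiU S)))

/-- The set of which the characteristic function is taken. -/
def UU (S : List ER.Con) (x : ℕ → ℝ) : Prop :=
  SysHolds (fun i => x ((varsOf S).idxOf i)) S ∧ 0 < x (varsOf S).length

theorem holds_phiU (S : List ER.Con) (z : Fin ((varsOf S).length + 2) → ℝ) :
    (phiU S).Holds z ↔ UU S (xt z) := by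
  unfold phiU UU
  rw [holds_qconj, List.forall_mem_map]
  simp only [QF.Holds, pval_var (show (varsOf S).length < (varsOf S).length + 2 by omega)]
  refine and_congr (forall₂_congr fun c _ => ?_) Iff.rfl
  exact pval_craw' _ _ (by omega) z

theorem mem_contInst (S : List ER.Con) (z : Fin ((varsOf S).length + 2) → ℝ) :
    z ∈ Sol ((varsOf S).length + 2) (contInst S).2 ↔
      (xt z ((varsOf S).length + 1) = 0 ∧ ¬ UU S (xt z)) ∨
      (xt z ((varsOf S).length + 1) = 1 ∧ UU S (xt z)) := by
  show (contInst S).2.Holds z ↔ _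
  unfold contInst
  simp only [QF.Holds, holds_phiU,
    pval_var (show (varsOf S).length + 1 < (varsOf S).length + 2 by omega),
    pval_varOne (show (varsOf S).length + 1 < (varsOf S).length + 2 by omega), sub_eq_zero]

theorem uu_congr (S : List ER.Con) {x x' : ℕ → ℝ} (h : ∀ j < (varsOf S).length + 1, x j = x' j) :
    UU S x ↔ UU S x' := by
  unfold UU
  have h1 : (fun i => x ((varsOf S).idxOf i)) = fun i => x' ((varsOf S).idxOf i) := by
    funext i
    exact h _ (Nat.lt_succ_of_le List.idxOf_le_length)
  rw [h1, h _ (Nat.lt_succ_self _)]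

theorem contInst_valid (S : List ER.Con) : (contInst S).2.Valid ((contInst S).1 + 1) := by
  have hU : (phiU S).Valid ((varsOf S).length + 2) := by
    intro p hp
    rcases polys_qconj _ _ p hp with ⟨φ, h1, h2⟩ | h
    · rw [List.mem_map] at h1
      obtain ⟨c, hc, rfl⟩ := h1
      simp only [QF.polys, List.mem_singleton] at h2
      subst h2
      exact collect_valid _ _
    · simp only [QF.polys, List.mem_singleton] at h
      subst h
      exact collect_valid _ _
  intro p hp
  simp only [contInst, QF.polys, List.mem_append, List.mem_singleton] at hp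
  rcases hp with (rfl | hp) | (rfl | hp)
  · exact collect_valid _ _
  · exact hU p hp
  · exact collect_valid _ _
  · exact hU p hp

theorem contInst_graph (S : List ER.Con) : ∃ f : (Fin ((varsOf S).length + 1) → ℝ) → ℝ,
    (∀ x, UU S (xt x) → f x = 1) ∧ (∀ x, ¬ UU S (xt x) → f x = 0) ∧
    Sol ((varsOf S).length + 1 + 1) (contInst S).2 =
      {z | z (Fin.last _) = f (fun i : Fin ((varsOf S).length + 1) => z i.castSucc)} := by
  classical
  refine ⟨fun x => if UU S (xt x) then 1 else 0, fun x hx => if_pos hx, fun x hx => if_neg hx, ?_⟩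
  ext z
  have h1 := mem_contInst S z
  have h2 : xt z ((varsOf S).length + 1) = z (Fin.last _) := xt_of_lt z (by omega)
  have h3 : UU S (xt z) ↔
      UU S (xt (fun i : Fin ((varsOf S).length + 1) => z i.castSucc)) := by
    refine uu_congr S fun j hj => ?_
    rw [xt_of_lt _ hj, xt_of_lt _ (hj.trans (Nat.lt_succ_self _))]
    rfl
  rw [h2, h3] at h1
  refine h1.trans ?_
  show _ ↔ z (Fin.last _) = if _ then 1 else 0
  by_cases hU : UU S (xt (fun i : Fin ((varsOf S).length + 1) => z i.castSucc))
  · simp [hU]
  · simp [hU]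

theorem contInst_function (S : List ER.Con) : FunctionGraph (contInst S) := by
  obtain ⟨f, -, -, h⟩ := contInst_graph S
  exact ⟨contInst_valid S, f, h⟩

theorem sat_iff_not_continuous (S : List ER.Con) : Sat S ↔ ¬ ContinuousGraph (contInst S) := by
  constructor
  · rintro ⟨v, hv⟩ ⟨-, hg⟩
    have hE : EpsDelta ((varsOf S).length + 1) (contInst S).2 := (epsDelta_iff _ _).2 hg
    let pt : ℝ → ℝ → (Fin ((varsOf S).length + 2) → ℝ) := fun t y k =>
      if (k : ℕ) < (varsOf S).length then v ((varsOf S).getD k 0)
      else if (k : ℕ) = (varsOf S).length then t else y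
    have hN : ∀ t y, xt (pt t y) (varsOf S).length = t := by
      intro t y
      rw [xt_of_lt _ (by omega)]
      simp [pt]
    have hN1 : ∀ t y, xt (pt t y) ((varsOf S).length + 1) = y := by
      intro t y
      rw [xt_of_lt _ (by omega)]
      simp [pt]
    have hsys : ∀ t y, SysHolds (fun i => xt (pt t y) ((varsOf S).idxOf i)) S := by
      intro t y c hc
      refine (ER.Con.holds_congr fun i hi => ?_).2 (hv c hc)
      have hm : i ∈ varsOf S := List.mem_flatMap.2 ⟨c, hc, hi⟩
      have hlt : (varsOf S).idxOf i < (varsOf S).length := List.idxOf_lt_length_iff.2 hm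
      rw [xt_of_lt _ (hlt.trans (by omega))]
      simp only [pt, hlt, if_true]
      rw [List.getD_eq_getElem?_getD, List.getElem?_eq_getElem hlt]
      simp
    have hx : pt 0 0 ∈ Sol ((varsOf S).length + 2) (contInst S).2 := by
      refine (mem_contInst S _).2 (Or.inl ⟨hN1 _ _, fun h => ?_⟩)
      have := h.2
      rw [hN] at this
      exact lt_irrefl _ this
    obtain ⟨δ, hδ, h1⟩ := hE _ hx 1 one_pos
    have hz : pt (δ / 2) 1 ∈ Sol ((varsOf S).length + 2) (contInst S).2 := by
      refine (mem_contInst S _).2 (Or.inr ⟨hN1 _ _, hsys _ _, ?_⟩)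
      rw [hN]
      positivity
    have h2 := h1 _ hz fun i => by
      by_cases hi : (i : ℕ) < (varsOf S).length
      · simp only [pt, Fin.val_castSucc, hi, if_true, sub_self, abs_zero]
        exact hδ
      · have hi' : (i : ℕ) = (varsOf S).length := by have := i.2; omega
        simp only [pt, Fin.val_castSucc, hi', lt_irrefl, if_false, if_true, sub_zero]
        rw [abs_of_pos (by positivity)]
        linarith
    have e0 : ∀ t y, pt t y (Fin.last ((varsOf S).length + 1)) = y := by
      intro t y
      refine Eq.trans ?_ (hN1 t y)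
      rw [xt_of_lt _ (by omega)]
      rfl
    have e1 : pt (δ / 2) 1 (Fin.last _) = 1 := e0 _ _
    have e2 : pt 0 0 (Fin.last _) = 0 := e0 _ _
    have h3 : |pt (δ / 2) 1 (Fin.last _) - pt 0 0 (Fin.last _)| < 1 := h2
    rw [e1, e2] at h3
    norm_num at h3
  · intro h
    by_contra hS
    refine h ⟨contInst_valid S, Set.univ, fun _ => 0, continuousOn_const, ?_⟩
    obtain ⟨f, -, hf, e⟩ := contInst_graph S
    have hf0 : ∀ x, f x = 0 := fun x => hf x fun hU => hS ⟨_, hU.1⟩
    refine e.trans ?_
    ext z
    show z (Fin.last _) = f _ ↔ (_ ∈ Set.univ ∧ z (Fin.last _) = 0)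
    rw [hf0]
    exact ⟨fun h => ⟨Set.mem_univ _, h⟩, fun h => h.2⟩

theorem poly_phiU : NPC.Poly phiU := by
  have hV : NPC.Poly (fun S : List ER.Con => varsOf S) := poly_varsOf NPC.Poly.id
  have hn : UPoly (fun S : List ER.Con => (varsOf S).length + 2) :=
    UPoly.add (UPoly.length hV) (UPoly.const 2)
  unfold phiU
  refine poly_qconj ?_ (poly_gtZ (poly_collect hn ?_))
  · refine NPC.Poly.map (F := fun (S : List ER.Con) c =>
      QF.eqZ (collect ((varsOf S).length + 2) (craw (varsOf S) c))) NPC.Poly.id ?_
    exact poly_eqZ (poly_collect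
      (UPoly.comp (n := fun S : List ER.Con => (varsOf S).length + 2) hn
        (NPC.Poly.fst NPC.Poly.id))
      (poly_craw (hV.comp (NPC.Poly.fst NPC.Poly.id)) (NPC.Poly.snd NPC.Poly.id)))
  · exact NPC.Poly.cons (NPC.Poly.pair (NPC.Poly.const _) (NPC.Poly.cons (NPC.Poly.length hV)
      (NPC.Poly.const []))) (NPC.Poly.const [])

theorem poly_qor {α : Type} [TEnc α] {φ ψ : α → QF} (h : NPC.Poly φ) (h' : NPC.Poly ψ) :
    NPC.Poly (fun a => QF.or (φ a) (ψ a)) :=
  poly_qf_of_toks (NPC.Poly.append (NPC.Poly.append (poly_qtoks h) (poly_qtoks h'))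
    (NPC.Poly.const [QTok.or]))

theorem poly_contInst : NPC.Poly contInst := by
  have hV : NPC.Poly (fun S : List ER.Con => varsOf S) := poly_varsOf NPC.Poly.id
  have hn : UPoly (fun S : List ER.Con => (varsOf S).length + 2) :=
    UPoly.add (UPoly.length hV) (UPoly.const 2)
  have hn1 : UPoly (fun S : List ER.Con => (varsOf S).length + 1) :=
    UPoly.add (UPoly.length hV) (UPoly.const 1)
  have hv : NPC.Poly (fun S : List ER.Con => [(varsOf S).length + 1]) :=
    NPC.Poly.cons hn1.toPoly (NPC.Poly.const [])
  have h1 : NPC.Poly (fun S : List ER.Con => (false, [(varsOf S).length + 1])) :=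
    NPC.Poly.pair (NPC.Poly.const _) hv
  unfold contInst
  exact NPC.Poly.pair hn1.toPoly (poly_qor
    (poly_qand (poly_eqZ (poly_collect hn (NPC.Poly.cons h1 (NPC.Poly.const []))))
      (poly_qnot poly_phiU))
    (poly_qand (poly_eqZ (poly_collect hn (NPC.Poly.cons h1 (NPC.Poly.const _)))) poly_phiU))

/-- Continuity is `∀ℝ`-hard even for functions defined on all of `ℝⁿ`. -/
theorem continuousGraph_hardWithin : ARHardWithin FunctionGraph ContinuousGraph :=
  ARHardWithin.of_sys poly_contInst contInst_function sat_iff_not_continuous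

/-- Continuity is `∀ℝ`-complete. -/
theorem continuousGraph_complete : ARComplete (lang ContinuousGraph) :=
  ⟨continuousGraph_inAR, continuousGraph_hardWithin.toARHard⟩

end Pool.Agent.Y211.CL
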