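import Pool.Agent.Y211.CL.Core
import Pool.Agent.H612.ClosedHard

/-!
# Limit problems for semialgebraic sets given by explicit polynomials
-/

namespace Pool.Agent.Y211.CL

open Pool.Agent.NPC Pool.Agent.NPC.ER Pool.Agent.NPC.H612
open Filter Topology

/-- The semialgebraic set defined by a quantifier-free formula in `n` variables. -/
def Sol (n : ℕ) (φ : QF) : Set (Fin n → ℝ) := {x | φ.Holds x}

/-! ### Translation of formulas -/

/-- The formula `φ`, with auxiliary variables for the powers of the first `m` variables. -/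
def qfm (m L : ℕ) (φ : QF) : Fm :=
  conj (powEqs m L ++ [φ.tr (fun p => Fm.eq (polT m p) Tm.zero) (fun p => Fm.lt Tm.zero (polT m p))
      (fun p => Fm.le Tm.zero (polT m p))])

/-- The formula has sizes bounded by `L`. -/
def Szd (L : ℕ) (φ : QF) : Prop :=
  ∀ p ∈ φ.polys, ∀ t ∈ p, t.2.length ≤ L ∧ ∀ i, (t.2.getD i 0).bits.length ≤ L

theorem szd_self (φ : QF) : Szd (szList φ).length φ :=
  fun _ hp _ ht => ⟨expo_length hp ht, bits_length_le hp ht⟩

theorem Szd.left {L : ℕ} {φ ψ : QF} (h : Szd L (QF.and φ ψ)) : Szd L φ :=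
  fun p hp => h p (List.mem_append.2 (Or.inl hp))

theorem Szd.right {L : ℕ} {φ ψ : QF} (h : Szd L (QF.and φ ψ)) : Szd L ψ :=
  fun p hp => h p (List.mem_append.2 (Or.inr hp))

theorem Szd.and {L : ℕ} {φ ψ : QF} (h : Szd L φ) (h' : Szd L ψ) : Szd L (QF.and φ ψ) := by
  intro p hp
  rcases List.mem_append.1 hp with hp | hp
  · exact h p hp
  · exact h' p hp

theorem Szd.not {L : ℕ} {φ : QF} (h : Szd L φ) : Szd L (QF.not φ) := h

theorem holds_qfm {n L : ℕ} {φ : QF} (hs : Szd L φ) (x : ℕ → ℝ) (z : Fin n → ℝ)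
    (hz : ∀ i < min n L, ∀ k ≤ L, x (vP i k) = xt z i ^ 2 ^ k) :
    (qfm (min n L) L φ).Holds x ↔ φ.Holds z := by
  have hp : ∀ p ∈ φ.polys, (polT (min n L) p).eval x = pval z p := by
    intro p hp
    refine eval_polT x (min n L) z p (min_le_left _ _) ?_ ?_
    · intro t ht i hi hin
      apply List.getD_eq_default
      have h1 := (hs p hp t ht).1
      omega
    · intro t ht i hi k hk
      exact hz i hi k (hk.le.trans ((hs p hp t ht).2 i))
  have h1 : (φ.tr (fun p => Fm.eq (polT (min n L) p) Tm.zero)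
      (fun p => Fm.lt Tm.zero (polT (min n L) p))
      (fun p => Fm.le Tm.zero (polT (min n L) p))).Holds x ↔ φ.Holds z := by
    rw [QF.holds_iff_val]
    refine φ.holds_tr (fun p h => ?_) (fun p h => ?_) (fun p h => ?_) <;>
      simp [Fm.Holds, Tm.eval, hp p h]
  have h3 : (∀ ψ ∈ powEqs (min n L) L, ψ.Holds x) := by
    intro ψ hψ
    simp only [powEqs, List.mem_flatMap, List.mem_range, List.mem_map] at hψ
    obtain ⟨i, hi, k, hk, rfl⟩ := hψ
    simp only [Fm.Holds, Tm.eval]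
    rw [hz i hi (k + 1) hk, hz i hi k hk.le, pow_succ, pow_mul]
    ring
  unfold qfm
  simp only [holds_conj, List.forall_mem_append, List.forall_mem_cons, List.not_mem_nil,
    false_implies, implies_true, and_true, h1]
  exact ⟨fun h => h.2, fun h => ⟨h3, h⟩⟩

theorem qfm_sound {n L : ℕ} {φ : QF} (hs : Szd L φ) {x : ℕ → ℝ}
    (h : (qfm (min n L) L φ).Holds x) (z : Fin n → ℝ)
    (hz : ∀ i < min n L, xt z i = x (vP i 0)) : φ.Holds z := by
  have hpow : ∀ ψ ∈ powEqs (min n L) L, ψ.Holds x := by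
    unfold qfm at h
    simp only [holds_conj, List.forall_mem_append] at h
    exact h.1
  have hk : ∀ i < min n L, ∀ k ≤ L, x (vP i k) = xt z i ^ 2 ^ k := by
    intro i hi k
    induction k with
    | zero => intro _; rw [hz i hi, pow_zero, pow_one]
    | succ k ih =>
      intro hk
      have h1 := hpow (Fm.eq (Tm.var (vP i (k + 1)))
        (Tm.mul (Tm.var (vP i k)) (Tm.var (vP i k)))) (by
        simp only [powEqs, List.mem_flatMap, List.mem_range, List.mem_map]
        exact ⟨i, hi, k, hk, rfl⟩)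
      simp only [Fm.Holds, Tm.eval] at h1
      rw [h1, ih (by omega), pow_succ, pow_mul]
      ring
  exact (holds_qfm hs x z hk).1 h

/-- The standard assignment: a point, and values of some further variables. -/
noncomputable def stP {n : ℕ} (z : Fin n → ℝ) (u : ℕ → ℝ) (j : ℕ) : ℝ :=
  if j % 4 = 3 then xt z (Nat.unpair (j / 4)).1 ^ 2 ^ (Nat.unpair (j / 4)).2 else u j

theorem stP_vP {n : ℕ} (z : Fin n → ℝ) (u : ℕ → ℝ) (i k : ℕ) :
    stP z u (vP i k) = xt z i ^ 2 ^ k := by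
  unfold stP vP
  rw [if_pos (by omega)]
  have : (4 * Nat.pair i k + 3) / 4 = Nat.pair i k := by omega
  rw [this, Nat.unpair_pair]

theorem stP_vP0 {n : ℕ} (z : Fin n → ℝ) (u : ℕ → ℝ) (i : ℕ) : stP z u (vP i 0) = xt z i := by
  rw [stP_vP, pow_zero, pow_one]

theorem stP_of_ne {n : ℕ} (z : Fin n → ℝ) (u : ℕ → ℝ) {j : ℕ} (h : j % 4 ≠ 3) :
    stP z u j = u j := if_neg h

theorem qfm_complete {n L : ℕ} {φ : QF} (hs : Szd L φ) {z : Fin n → ℝ} (h : φ.Holds z)
    (u : ℕ → ℝ) : (qfm (min n L) L φ).Holds (stP z u) :=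
  (holds_qfm hs _ z fun i _ k _ => stP_vP z u i k).2 h

theorem poly_qfm {α : Type} [TEnc α] {m L : α → ℕ} {φ : α → QF} (hm : UPoly m) (hL : UPoly L)
    (h : NPC.Poly φ) : NPC.Poly (fun a => qfm (m a) (L a) (φ a)) := by
  have hmp : UPoly (fun q : α × PolyData => m q.1) := UPoly.comp hm (NPC.Poly.fst NPC.Poly.id)
  have hpt : NPC.Poly (fun q : α × PolyData => polT (m q.1) q.2) := poly_polT hmp (NPC.Poly.snd NPC.Poly.id)
  unfold qfm
  refine poly_conj (NPC.Poly.append (poly_powEqs hm hL) (NPC.Poly.cons ?_ (NPC.Poly.const [])))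
  exact poly_tr (e := fun a p => Fm.eq (polT (m a) p) Tm.zero)
    (g := fun a p => Fm.lt Tm.zero (polT (m a) p))
    (h := fun a p => Fm.le Tm.zero (polT (m a) p)) h
    (poly_feq hpt (NPC.Poly.const _)) (poly_flt (NPC.Poly.const _) hpt) (poly_fle (NPC.Poly.const _) hpt)

/-! ### The closure of a set meets another set -/

/-- The bound of the sizes. -/
def szL (φ ψ : QF) : ℕ := (szList (QF.and φ ψ)).length

/-- The instance of `Meets`. -/
def mInst (n : ℕ) (φ ψ : QF) : List ℕ × Fm × Fm :=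
  ((List.range (min n (szL φ ψ))).map (fun i => vP i 0),
    qfm (min n (szL φ ψ)) (szL φ ψ) φ, qfm (min n (szL φ ψ)) (szL φ ψ) ψ)

/-- The closure of the set of `φ` meets the set of `ψ`. -/
theorem nonempty_iff_meets (n : ℕ) (φ ψ : QF) :
    (closure (Sol n φ) ∩ Sol n ψ).Nonempty ↔ Meets (mInst n φ ψ) := by
  have hs := szd_self (QF.and φ ψ)
  unfold mInst
  change Szd (szL φ ψ) _ at hs
  generalize szL φ ψ = L at hs
  have hφ := hs.left
  have hψ := hs.right
  constructor
  · rintro ⟨x, hx, hxψ⟩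
    refine ⟨stP x (fun _ => 0), qfm_complete hψ hxψ _, fun ε hε => ?_⟩
    obtain ⟨z, hz, hd⟩ := Metric.mem_closure_iff.1 hx ε hε
    refine ⟨stP z (fun _ => 0), qfm_complete hφ hz _, fun j hj => ?_⟩
    simp only [List.mem_map, List.mem_range] at hj
    obtain ⟨i, hi, rfl⟩ := hj
    rw [stP_vP0, stP_vP0]
    have hin : i < n := hi.trans_le (min_le_left _ _)
    rw [xt_of_lt z hin, xt_of_lt x hin, ← Real.dist_eq, dist_comm]
    exact (dist_pi_lt_iff hε).1 hd ⟨i, hin⟩
  · rintro ⟨X, hX, hlim⟩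
    let pt : (ℕ → ℝ) → Fin n → ℝ := fun X i => if (i : ℕ) < min n L then X (vP i 0) else 0
    have hpt : ∀ X : ℕ → ℝ, ∀ i < min n L, xt (pt X) i = X (vP i 0) := by
      intro X i hi
      have : i < n := hi.trans_le (min_le_left _ _)
      rw [xt_of_lt _ this]
      exact if_pos hi
    refine ⟨pt X, Metric.mem_closure_iff.2 fun ε hε => ?_, qfm_sound hψ hX _ (hpt X)⟩
    obtain ⟨Y, hY, hd⟩ := hlim ε hε
    refine ⟨pt Y, qfm_sound hφ hY _ (hpt Y), (dist_pi_lt_iff hε).2 fun i => ?_⟩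
    by_cases hi : (i : ℕ) < min n L
    · have e1 : pt X i = X (vP i 0) := if_pos hi
      have e2 : pt Y i = Y (vP i 0) := if_pos hi
      rw [e1, e2, dist_comm, Real.dist_eq]
      exact hd _ (List.mem_map.2 ⟨i, List.mem_range.2 hi, rfl⟩)
    · have e1 : pt X i = 0 := if_neg hi
      have e2 : pt Y i = 0 := if_neg hi
      rw [e1, e2, dist_self]
      exact hε

section

variable {α : Type} [TEnc α]

theorem poly_qand {φ ψ : α → QF} (h : NPC.Poly φ) (h' : NPC.Poly ψ) :
    NPC.Poly (fun a => QF.and (φ a) (ψ a)) :=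
  poly_qf_of_toks (NPC.Poly.append (NPC.Poly.append (poly_qtoks h) (poly_qtoks h')) (NPC.Poly.const [QTok.and]))

theorem poly_qnot {φ : α → QF} (h : NPC.Poly φ) : NPC.Poly (fun a => QF.not (φ a)) :=
  poly_qf_of_toks (NPC.Poly.append (poly_qtoks h) (NPC.Poly.const [QTok.not]))

theorem upoly_szL {φ ψ : α → QF} (h : NPC.Poly φ) (h' : NPC.Poly ψ) : UPoly (fun a => szL (φ a) (ψ a)) :=
  UPoly.length (poly_szList (poly_qand h h'))

theorem upoly_minL {n L : α → ℕ} (hn : NPC.Poly n) (hL : UPoly L) :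
    UPoly (fun a => min (n a) (L a)) :=
  UPoly.of_le (NPC.Poly.min hn hL.toPoly) hL fun a => min_le_right _ _

theorem poly_evars {m : α → ℕ} (hm : UPoly m) :
    NPC.Poly (fun a => (List.range (m a)).map (fun i => vP i 0)) :=
  NPC.Poly.map (F := fun _ i => vP i 0) hm.range (poly_vP (NPC.Poly.snd NPC.Poly.id) (NPC.Poly.const 0))

theorem poly_mInst {n : α → ℕ} {φ ψ : α → QF} (hn : NPC.Poly n) (h : NPC.Poly φ) (h' : NPC.Poly ψ) :
    NPC.Poly (fun a => mInst (n a) (φ a) (ψ a)) := by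
  have hL := upoly_szL h h'
  have hm := upoly_minL hn hL
  exact NPC.Poly.pair (poly_evars hm) (NPC.Poly.pair (poly_qfm hm hL h) (poly_qfm hm hL h'))

end

end Pool.Agent.Y211.CL
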